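import Mathlib
import Pool.Agent.H574R3.Alpha.Sect

/-!
# The infimum defining the Frobenius alpha-invariant need not be attained

Let `p` be an odd prime, `k` a perfect field of characteristic `p`, `X = Proj k[x, y]` the
projective line, `L` the divisor with `𝒪_X(L) = 𝒪_X(1)` (so that the section ring is
`S = k[x, y]`), and `Δ = 1/2 (V(x) + V(y) + V(x + y))`.  The pair `(X, Δ)` is globally `F`-regular,
`α_F(X, Δ; L) = 1/4`, and `fpt(S, Δ~; f) * deg f > 1/4` for every nonzero homogeneous `f` of
positive degree.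
-/

set_option autoImplicit false

open MvPolynomial
open Pool.Agent.H574R3.Alpha

universe u v w

namespace Pool.Agent.Results.MP_98601e_ag.NotAttained

attribute [local instance] MvPolynomial.gradedAlgebra

/-- For every odd prime `p` and every perfect field `k` of characteristic `p`: `k[x, y]` is the
section ring of `𝒪(1)` on the projective line `X = Proj k[x, y]`, the pair
`(X, Δ = 1/2 (three points))` is globally `F`-regular, its Frobenius alpha-invariant is `1/4`, and
the infimum `1/4` is not attained. -/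
theorem result (p : ℕ) [Fact p.Prime] (hp : p ≠ 2) (k : Type u) [Field k] [CharP k p]
    [PerfectField k] :
    IsSectionRing (homogeneousSubmodule (Fin 2) k) ∧
    IsEffectiveDivisor (homogeneousSubmodule (Fin 2) k) (halfThree k) ∧
    IsGloballyFRegular (homogeneousSubmodule (Fin 2) k) p (halfThree k) ∧
    alphaF (homogeneousSubmodule (Fin 2) k) p (halfThree k) = 1 / 4 ∧
    ∀ (d : ℕ) (f : MvPolynomial (Fin 2) k), 0 < d → f ∈ homogeneousSubmodule (Fin 2) k d →
      f ≠ 0 →
      alphaF (homogeneousSubmodule (Fin 2) k) p (halfThree k) <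
        fpt (homogeneousSubmodule (Fin 2) k) p (halfThree k) f * d := by
  have : PerfectRing k p := PerfectField.toPerfectRing p
  refine ⟨isSectionRing k, isEffective k, gfr p hp, alpha_eq p hp, ?_⟩
  intro d f hd hf hf0
  rw [alpha_eq p hp]
  exact quarter_lt p hp hd hf hf0

/-- The general assertion of the question is false. -/
theorem not_attained_in_general :
    ¬ ∀ (p : ℕ) (_ : Fact p.Prime) (k : Type) (_ : Field k) (_ : CharP k p) (_ : PerfectField k)
      (S : Type) (_ : CommRing S) (_ : IsDomain S) (_ : Algebra k S) (𝒜 : ℕ → Submodule k S)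
      (_ : GradedAlgebra 𝒜) (Δ : Ideal S →₀ ℚ), IsSectionRing 𝒜 → IsEffectiveDivisor 𝒜 Δ →
      IsGloballyFRegular 𝒜 p Δ →
      ∃ (d : ℕ) (f : S), 0 < d ∧ f ∈ 𝒜 d ∧ f ≠ 0 ∧ fpt 𝒜 p Δ f * d = alphaF 𝒜 p Δ := by
  intro h
  have : Fact (Nat.Prime 3) := ⟨Nat.prime_three⟩
  obtain ⟨h1, h2, h3, -, h5⟩ := result 3 (by norm_num) (ZMod 3)
  obtain ⟨d, f, hd, hf, hf0, he⟩ := h 3 inferInstance (ZMod 3) inferInstance inferInstance
    inferInstance (MvPolynomial (Fin 2) (ZMod 3)) inferInstance inferInstance inferInstance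
    (homogeneousSubmodule (Fin 2) (ZMod 3)) inferInstance (halfThree (ZMod 3)) h1 h2 h3
  exact absurd he (h5 d f hd hf hf0).ne'

end Pool.Agent.Results.MP_98601e_ag.NotAttained
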